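import Pool.Agent.TH158.FM.Rng
import Pool.Agent.TH692.FM2.Norm3
import Pool.Agent.TH692.FM2.Range2

set_option autoImplicit false

/-!
# The case `k = 2` of Q2 at all heights, and orders near `k = 2`

`M_k(T) = ∫_0^T |ζ(1/2 + it)|^{2k} dt`. The inequality `M_k(T) ≤ T (log T)^{k²}` of Q2 holds for `k = 2` and
every `T ≥ 1000`, with the constant `4/5` instead of `1` (and with `0.4799` for `T ≥ 10^8`). More generally it
holds for every `T ≥ 1000` and every real `k` with `2 ≤ k ≤ 2 + 7 / (5 log T)`. The hand-in `AllOrdersInRanges`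
has, for a given `k`, bounded ranges of `T` only (`T ≤ 5 · 10^12` for `k = 2`).

The proof uses the explicit fourth moment and the explicit pointwise bound
`|ζ(1/2 + it)| ≤ 4 (t / 2π)^{1/4} + 1` of the starting files `Pool/Agent/TH158/FM`; the width
`7 / (5 log T)` comes from `e^{7/10} · 0.4799 < 1`.
-/

namespace Pool.Agent.Results.MP_3d0d30_nt.FourthMomentAllHeights

open Complex Pool.Agent.TH158.FM

/-- `M_k(T) = ∫_0^T |ζ(1/2 + it)|^{2k} dt` -/
noncomputable def M (k T : ℝ) : ℝ := ∫ t in (0:ℝ)..T, ‖riemannZeta (1 / 2 + t * I)‖ ^ (2 * k)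

lemma M_eq (k T : ℝ) : M k T = MM k T := by
  unfold M MM
  congr 1
  funext t
  rw [pt_half]

lemma M_two (T : ℝ) : M 2 T = ∫ t in (0:ℝ)..T, ‖riemannZeta (pt (1 / 2) t)‖ ^ 4 := by
  unfold M
  congr 1
  funext t
  rw [pt_half]
  have : (2 * 2 : ℝ) = ((4 : ℕ) : ℝ) := by norm_num
  rw [this, Real.rpow_natCast]

lemma hN : S_NORM2 := Pool.Agent.TH692.FM2.norm2_all
    (Pool.Agent.TH615.J4553.hil_all Pool.Agent.TH158.FM.hil0_all)
    (Pool.Agent.TH158.FM.lap_all Pool.Agent.TH360.J4554.div_all)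

lemma hR : S_RANGE2 := Pool.Agent.TH692.FM2.range2_all

/-- orders near `2` at large heights -/
lemma near_two {k T : ℝ} (hk : 2 ≤ k) (hT : 10 ^ 8 ≤ T) (h : k ≤ 2 + 7 / (5 * Real.log T)) :
    MM k T < T * Real.log T ^ (k ^ 2) := by
  have hT0 : 0 < T := by linarith
  have hl : (69:ℝ) / 10 ≤ Real.log T := log_ge (by linarith)
  have hl0 : 0 < Real.log T := by linarith
  set L := Real.log T with hL
  set d := k - 2 with hd
  have hd0 : 0 ≤ d := by linarith
  have hdL : d * L ≤ 7 / 5 := by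
    have h1 : d ≤ 7 / (5 * L) := by linarith
    calc d * L ≤ 7 / (5 * L) * L := by gcongr
      _ = 7 / 5 := by field_simp
  have h1 := all_gen hN k T hk hT
  have hV : VV T ≤ Real.exp (L / 4) * L ^ 2 := by
    have e1 : Real.exp (L / 4) = T ^ (1 / 4 : ℝ) := by
      rw [Real.rpow_def_of_pos hT0, ← hL]
      congr 1
      ring
    have h2 : (T / (2 * Real.pi)) ^ (1 / 4 : ℝ) ≤ T ^ (1 / 4 : ℝ) := by
      apply Real.rpow_le_rpow (by positivity) _ (by norm_num)
      apply div_le_self hT0.le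
      linarith [Real.pi_gt_three]
    have h3 : (1 : ℝ) ≤ T ^ (1 / 4 : ℝ) := Real.one_le_rpow (by linarith) (by norm_num)
    have h4 : (47 : ℝ) ≤ L ^ 2 := by nlinarith
    unfold VV
    rw [e1]
    nlinarith
  have hVd : VV T ^ (2 * k - 4) ≤ Real.exp (7 / 10) * L ^ (4 * d) := by
    have h0 : 0 ≤ VV T := le_trans zero_le_one (VV_ge hT0.le)
    calc VV T ^ (2 * k - 4) ≤ (Real.exp (L / 4) * L ^ 2) ^ (2 * k - 4) :=
          Real.rpow_le_rpow h0 hV (by linarith)
      _ = Real.exp (d * L / 2) * L ^ (4 * d) := by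
          rw [Real.mul_rpow (Real.exp_pos _).le (by positivity), ← Real.exp_mul]
          congr 1
          · congr 1
            rw [hd]; ring
          · have : L ^ 2 = L ^ (2 : ℝ) := by norm_cast
            rw [this, ← Real.rpow_mul hl0.le]
            congr 1
            rw [hd]; ring
      _ ≤ Real.exp (7 / 10) * L ^ (4 * d) := by
          apply mul_le_mul_of_nonneg_right _ (by positivity)
          apply Real.exp_le_exp.2
          linarith
  have he : Real.exp (7 / 10) * (4799 / 10000) < 1 := by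
    have h2 : Real.exp (7 / 10) ^ 10 ≤ 2.7182818286 ^ 7 := by
      rw [← Real.exp_nat_mul]
      have h3 : ((10 : ℕ) : ℝ) * (7 / 10) = ((7 : ℕ) : ℝ) * 1 := by norm_num
      rw [h3, Real.exp_nat_mul]
      gcongr
      exact Real.exp_one_lt_d9.le
    by_contra hcon
    push Not at hcon
    have h4 : (10000 / 4799 : ℝ) ≤ Real.exp (7 / 10) := by
      rw [div_le_iff₀ (by norm_num)]
      linarith
    have h5 : (10000 / 4799 : ℝ) ^ 10 ≤ Real.exp (7 / 10) ^ 10 := by gcongr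
    have h6 := h5.trans h2
    norm_num at h6
  have hk2 : L ^ (4 : ℝ) * L ^ (4 * d) ≤ L ^ (k ^ 2) := by
    rw [← Real.rpow_add hl0]
    apply Real.rpow_le_rpow_of_exponent_le (by linarith)
    rw [hd]
    nlinarith [sq_nonneg (k - 2)]
  have h4 : L ^ 4 = L ^ (4 : ℝ) := by norm_cast
  have hX : 0 < T * (L ^ (4 : ℝ) * L ^ (4 * d)) := by positivity
  calc MM k T ≤ 4799 / 10000 * (T * L ^ 4 * VV T ^ (2 * k - 4)) := h1
    _ ≤ 4799 / 10000 * (T * L ^ 4 * (Real.exp (7 / 10) * L ^ (4 * d))) := by gcongr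
    _ = Real.exp (7 / 10) * (4799 / 10000) * (T * (L ^ (4 : ℝ) * L ^ (4 * d))) := by rw [h4]; ring
    _ < 1 * (T * (L ^ (4 : ℝ) * L ^ (4 * d))) := mul_lt_mul_of_pos_right he hX
    _ = T * (L ^ (4 : ℝ) * L ^ (4 * d)) := one_mul _
    _ ≤ T * L ^ (k ^ 2) := by gcongr

/-- **The fourth moment at all heights, and orders near four.** (1) `M_2(T) ≤ (4/5) T (log T)^4` for all
`T ≥ 1000` and `M_2(T) ≤ 0.4799 T (log T)^4` for all `T ≥ 10^8`. (2) The inequality of Q2 holds, strictly, for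
all `T ≥ 1000` and all real `k` with `2 ≤ k ≤ 2 + 7 / (5 log T)`; for `k = 2` this is Q2 at all heights. (3) An
explicit upper bound for all real `k ≥ 2` and all `T ≥ 10^8`. -/
theorem result :
    (∀ T : ℝ, 1000 ≤ T → M 2 T ≤ 4 / 5 * (T * Real.log T ^ 4)) ∧
    (∀ T : ℝ, 10 ^ 8 ≤ T → M 2 T ≤ 4799 / 10000 * (T * Real.log T ^ 4)) ∧
    (∀ T : ℝ, 1000 ≤ T → ∀ k : ℝ, 2 ≤ k → k ≤ 2 + 7 / (5 * Real.log T) →
      M k T < T * Real.log T ^ (k ^ 2)) ∧
    (∀ T : ℝ, 10 ^ 8 ≤ T → ∀ k : ℝ, 2 ≤ k →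
      M k T ≤ 4799 / 10000 * (T * Real.log T ^ 4 *
        (4 * (T / (2 * Real.pi)) ^ (1 / 4 : ℝ) + 1) ^ (2 * k - 4))) := by
  refine ⟨fun T hT => ?_, fun T hT => ?_, fun T hT k hk hk' => ?_, fun T hT k hk => ?_⟩
  · rw [M_two]
    exact fourth_all T hT
  · rw [M_two]
    exact fourth2_all hN T hT
  · rw [M_eq]
    rcases le_total T (5 * 10 ^ 12) with h | h
    · exact all_small hN hR k T hk hT h
    · exact near_two hk (by linarith) hk'
  · rw [M_eq]
    exact all_gen hN k T hk hT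

end Pool.Agent.Results.MP_3d0d30_nt.FourthMomentAllHeights
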