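import Pool.Agent.TH158.FM.Main
import Pool.Agent.TH158.FM.Mom
import Pool.Agent.Q231.RS.Weyl

set_option autoImplicit false

/-!
# MP_3d0d30_nt: the inequality of Q2 for `T ≤ (3 k log k)^{3k}`

`M_k(T) = ∫_0^T |ζ(1/2 + it)|^{2k} dt`. There is a constant `A` such that for every real `k ≥ 2`
and every `T ≥ 1000` with `log T + A ≤ 3 k log log T` one has
`M_k(T) ≤ (4/5) T (log T)^{k²}`. Hence there is `k₀` such that Q2 holds for every real `k ≥ k₀` and
all `T` with `1000 ≤ T ≤ (3 k log k)^{3k}`.

Proof: the fourth moment with an explicit constant, and Weyl's bound `O(t^{1/6} log t)`.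
-/

namespace Pool.Agent.Results.MP_3d0d30_nt.WeylRange

open Complex MeasureTheory Set Pool.Agent.TH158.FM

/-- `M_k(T) = ∫_0^T |ζ(1/2 + it)|^{2k} dt` -/
noncomputable def M (k T : ℝ) : ℝ := ∫ t in (0:ℝ)..T, ‖riemannZeta (1 / 2 + t * I)‖ ^ (2 * k)

lemma pt_half' (t : ℝ) : pt (1 / 2) t = 1 / 2 + t * I := by
  unfold pt
  push_cast
  ring

lemma M_eq (k T : ℝ) : M k T = MM k T := by
  unfold M MM
  congr 1
  funext t
  rw [pt_half']

/-- if `|ζ(1/2+it)| ≤ (log T)^{(k+2)/2}` on `[0, T]` then `M_k(T) ≤ (4/5) T (log T)^{k²}` -/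
theorem moment_of_sup {T k : ℝ} (hT : 1000 ≤ T) (hk : 2 ≤ k)
    (hpt : ∀ t ∈ Icc (0:ℝ) T, ‖riemannZeta (pt (1 / 2) t)‖ ≤ Real.log T ^ ((k + 2) / 2)) :
    MM k T ≤ 4 / 5 * (T * Real.log T ^ (k ^ 2)) := by
  have h4 := fourth_all T hT
  have hT0 : 0 < T := by linarith
  have hl : (69:ℝ) / 10 ≤ Real.log T := log_thousand.trans (Real.log_le_log (by norm_num) hT)
  have hl0 : 0 < Real.log T := by linarith
  set L := Real.log T ^ ((k + 2) / 2) with hL
  have hL0 : 0 < L := Real.rpow_pos_of_pos hl0 _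
  have h1 : MM k T ≤ ∫ t in (0:ℝ)..T, L ^ (2 * k - 4) * ‖riemannZeta (pt (1 / 2) t)‖ ^ 4 := by
    unfold MM
    apply intervalIntegral.integral_mono_on hT0.le
    · exact (zeta_cont.norm.rpow_const (fun t => Or.inr (by linarith))).intervalIntegrable _ _
    · exact (continuous_const.mul (zeta_cont.norm.pow 4)).intervalIntegrable _ _
    · intro t ht
      set z := ‖riemannZeta (pt (1 / 2) t)‖ with hz
      have hz0 : 0 ≤ z := norm_nonneg _
      have e : z ^ (2 * k) = z ^ (2 * k - 4) * z ^ 4 := by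
        have : z ^ 4 = z ^ (4 : ℝ) := by norm_cast
        rw [this, ← Real.rpow_add_of_nonneg hz0 (by linarith) (by norm_num)]
        congr 1
        ring
      rw [e]
      gcongr
      · linarith
      · exact hpt t ht
  refine h1.trans ?_
  rw [intervalIntegral.integral_const_mul]
  have h2 : L ^ (2 * k - 4) * Real.log T ^ 4 = Real.log T ^ (k ^ 2) := by
    rw [hL, ← Real.rpow_mul hl0.le]
    have : Real.log T ^ 4 = Real.log T ^ (4 : ℝ) := by norm_cast
    rw [this, ← Real.rpow_add hl0]
    congr 1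
    ring
  calc L ^ (2 * k - 4) * ∫ t in (0:ℝ)..T, ‖riemannZeta (pt (1 / 2) t)‖ ^ 4
      ≤ L ^ (2 * k - 4) * (4 / 5 * (T * Real.log T ^ 4)) := by gcongr
    _ = 4 / 5 * (T * (L ^ (2 * k - 4) * Real.log T ^ 4)) := by ring
    _ = _ := by rw [h2]

theorem sup_bound : ∃ C : ℝ, 1 ≤ C ∧ ∀ T : ℝ, 1000 ≤ T → ∀ t ∈ Icc (0:ℝ) T,
    ‖riemannZeta (pt (1 / 2) t)‖ ≤ C * (T ^ (1 / 6 : ℝ) * Real.log T) := by
  obtain ⟨C, hC, h⟩ := Pool.Agent.Q231.RS.weyl_log
  obtain ⟨B, hB⟩ := (isCompact_Icc (a := (0:ℝ)) (b := 2)).exists_bound_of_continuousOn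
    (f := fun t => riemannZeta (pt (1 / 2) t)) zeta_cont.continuousOn
  refine ⟨max 1 (max B C), le_max_left _ _, fun T hT t ht => ?_⟩
  have hl : (69:ℝ) / 10 ≤ Real.log T := log_thousand.trans (Real.log_le_log (by norm_num) hT)
  have hT1 : 1 ≤ T ^ (1 / 6 : ℝ) := Real.one_le_rpow (by linarith) (by norm_num)
  have h1 : 1 ≤ T ^ (1 / 6 : ℝ) * Real.log T := by nlinarith
  set D := max 1 (max B C) with hD
  have hD1 : 1 ≤ D := le_max_left _ _
  have hDB : B ≤ D := (le_max_left _ _).trans (le_max_right _ _)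
  have hDC : C ≤ D := (le_max_right _ _).trans (le_max_right _ _)
  rcases le_total t 2 with h2 | h2
  · have h3 := hB t ⟨ht.1, h2⟩
    nlinarith
  · have h3 := h t h2
    rw [pt_half']
    refine h3.trans ?_
    have h4 : t ^ (1 / 6 : ℝ) ≤ T ^ (1 / 6 : ℝ) :=
      Real.rpow_le_rpow (by linarith) ht.2 (by norm_num)
    have h5 : Real.log t ≤ Real.log T := Real.log_le_log (by linarith) ht.2
    have h6 : 0 ≤ Real.log t := Real.log_nonneg (by linarith)
    have h7 : t ^ (1 / 6 : ℝ) * Real.log t ≤ T ^ (1 / 6 : ℝ) * Real.log T :=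
      mul_le_mul h4 h5 h6 (by linarith)
    have h8 : 0 ≤ t ^ (1 / 6 : ℝ) * Real.log t := by positivity
    exact mul_le_mul hDC h7 h8 (by linarith)

/-- the calculation with the numbers `y = 3 k`, `x = log T` -/
theorem numbers {A k x : ℝ} (hA : 0 ≤ A) (hk : 3 ≤ k) (hk2 : 2 * A ≤ k) (hkA : 4 * A ^ 2 ≤ k)
    (hx : 69 / 10 ≤ x) (hxk : x ≤ 3 * k * Real.log (3 * k * Real.log k)) :
    x + A ≤ 3 * k * Real.log x := by
  have hx0 : 0 < x := by linarith
  set y := 3 * k with hy
  have hy9 : 9 ≤ y := by linarith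
  have hy0 : 0 < y := by linarith
  have hlk : 1 < Real.log k := by
    rw [Real.lt_log_iff_exp_lt (by linarith)]
    have := Real.exp_one_lt_d9
    linarith
  have hlx : 1 + 9 / 10 ≤ Real.log x := by
    rw [Real.le_log_iff_exp_le hx0]
    have h1 : Real.exp (1 + 9 / 10) ≤ 69 / 10 := by
      have h2 : Real.exp (1 + 9 / 10) = Real.exp 1 * Real.exp (9 / 10) := Real.exp_add _ _
      have h3 : Real.exp (9 / 10) = Real.exp 1 / Real.exp (1 / 10) := by
        rw [← Real.exp_sub]; norm_num
      have h4 : 1 + 1 / 10 ≤ Real.exp (1 / 10) := by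
        have := Real.add_one_le_exp (1 / 10 : ℝ)
        linarith
      have h5 := Real.exp_one_lt_d9
      have h6 : Real.exp (9 / 10) ≤ 2.7182818286 / (1 + 1 / 10) := by
        rw [h3]
        exact div_le_div₀ (by norm_num) h5.le (by norm_num) h4
      rw [h2]
      calc Real.exp 1 * Real.exp (9 / 10) ≤ 2.7182818286 * (2.7182818286 / (1 + 1 / 10)) :=
            mul_le_mul h5.le h6 (Real.exp_pos _).le (by norm_num)
        _ ≤ 69 / 10 := by norm_num
    linarith
  rcases le_total x y with h | h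
  · nlinarith
  · -- the end `b` of the range
    set b := y * Real.log (y * Real.log k) with hb
    have hly : 0 < Real.log y := Real.log_pos (by linarith)
    have hllk : 0 < Real.log (Real.log k) := Real.log_pos hlk
    have hlog : Real.log (y * Real.log k) = Real.log y + Real.log (Real.log k) :=
      Real.log_mul hy0.ne' (by linarith)
    have hb0 : 0 < b := by rw [hb, hlog]; positivity
    have h1 : Real.log b - Real.log x ≤ (b - x) / y := by
      rw [← Real.log_div hb0.ne' hx0.ne']
      have h2 := Real.log_le_sub_one_of_pos (div_pos hb0 hx0)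
      have h3 : b / x - 1 = (b - x) / x := by field_simp
      rw [h3] at h2
      exact h2.trans (div_le_div_of_nonneg_left (by linarith) hy0 h)
    have h2 : y * Real.log b - b ≤ y * Real.log x - x := by
      have h3 := mul_le_mul_of_nonneg_left h1 hy0.le
      rw [mul_div_cancel₀ _ hy0.ne'] at h3
      linarith
    -- the value at `b`
    have h3 : Real.log b = Real.log y + Real.log (Real.log (y * Real.log k)) := by
      rw [hb]
      refine Real.log_mul hy0.ne' ?_
      rw [hlog]
      positivity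
    have h4 : y * Real.log b - b = y * (Real.log (Real.log (y * Real.log k)) -
        Real.log (Real.log k)) := by
      rw [h3, hb]
      rw [hlog]
      ring
    have h5 : Real.log y = Real.log 3 + Real.log k := Real.log_mul (by norm_num) (by linarith)
    have hl3 : 1 ≤ Real.log 3 := by
      rw [Real.le_log_iff_exp_le (by norm_num)]
      have := Real.exp_one_lt_d9
      linarith
    have h6 : 1 / Real.log y ≤ Real.log (Real.log (y * Real.log k)) - Real.log (Real.log k) := by
      have h7 : Real.log (Real.log y) - Real.log (Real.log k) ≥ 1 / Real.log y := by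
        rw [← Real.log_div hly.ne' (by linarith)]
        have h8 := Real.one_sub_inv_le_log_of_pos (div_pos hly (by linarith : 0 < Real.log k))
        rw [inv_div] at h8
        refine le_trans ?_ h8
        rw [div_le_iff₀ hly, sub_mul, div_mul_cancel₀ _ hly.ne']
        linarith
      have h8 : Real.log (Real.log y) ≤ Real.log (Real.log (y * Real.log k)) := by
        refine Real.log_le_log hly ?_
        rw [hlog]
        linarith
      linarith
    have h7 : A ≤ y * (1 / Real.log y) := by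
      have hs0 : 0 < Real.sqrt y := Real.sqrt_pos.2 hy0
      have hs : Real.log y ≤ 2 * Real.sqrt y := by
        have e : Real.log y = 2 * Real.log (Real.sqrt y) := by
          rw [Real.log_sqrt hy0.le]; ring
        have := Real.log_le_sub_one_of_pos hs0
        rw [e]
        linarith
      have hsA : 2 * A ≤ Real.sqrt y := by
        refine Real.le_sqrt_of_sq_le ?_
        nlinarith
      rw [mul_one_div, le_div_iff₀ hly]
      calc A * Real.log y ≤ A * (2 * Real.sqrt y) := mul_le_mul_of_nonneg_left hs hA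
        _ = 2 * A * Real.sqrt y := by ring
        _ ≤ Real.sqrt y * Real.sqrt y := mul_le_mul_of_nonneg_right hsA hs0.le
        _ = y := Real.mul_self_sqrt hy0.le
    have h8 := mul_le_mul_of_nonneg_left h6 hy0.le
    rw [← h4] at h8
    linarith

/-- **Q2 up to `(3 k log k)^{3k}`.** -/
theorem result :
    (∃ A : ℝ, ∀ k T : ℝ, 2 ≤ k → 1000 ≤ T → Real.log T + A ≤ 3 * k * Real.log (Real.log T) →
      M k T < T * Real.log T ^ (k ^ 2)) ∧
    (∃ k₀ : ℝ, ∀ k T : ℝ, k₀ ≤ k → 1000 ≤ T → T ≤ (3 * k * Real.log k) ^ (3 * k) →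
      M k T < T * Real.log T ^ (k ^ 2)) := by
  obtain ⟨C, hC1, hC⟩ := sup_bound
  have hlC : 0 ≤ Real.log C := Real.log_nonneg hC1
  have key : ∀ k T : ℝ, 2 ≤ k → 1000 ≤ T →
      Real.log T + 6 * Real.log C ≤ 3 * k * Real.log (Real.log T) →
      M k T < T * Real.log T ^ (k ^ 2) := by
    intro k T hk hT h
    have hT0 : 0 < T := by linarith
    have hl : (69:ℝ) / 10 ≤ Real.log T := log_thousand.trans (Real.log_le_log (by norm_num) hT)
    have hl0 : 0 < Real.log T := by linarith
    have h1 : C * (T ^ (1 / 6 : ℝ) * Real.log T) ≤ Real.log T ^ ((k + 2) / 2) := by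
      rw [← Real.log_le_log_iff (by positivity) (by positivity),
        Real.log_mul (by linarith) (by positivity),
        Real.log_mul (by positivity) hl0.ne', Real.log_rpow hT0, Real.log_rpow hl0]
      linarith
    have h2 := moment_of_sup hT hk (fun t ht => (hC T hT t ht).trans h1)
    rw [M_eq]
    have hp : 0 < T * Real.log T ^ (k ^ 2) := by positivity
    linarith
  refine ⟨⟨6 * Real.log C, key⟩, ⟨max 3 (max (2 * (6 * Real.log C)) (4 * (6 * Real.log C) ^ 2)),
    fun k T hk hT hT2 => ?_⟩⟩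
  have hk3 : 3 ≤ k := (le_max_left _ _).trans hk
  have hk4 : 2 * (6 * Real.log C) ≤ k := ((le_max_left _ _).trans (le_max_right _ _)).trans hk
  have hk5 : 4 * (6 * Real.log C) ^ 2 ≤ k := ((le_max_right _ _).trans (le_max_right _ _)).trans hk
  have hl : (69:ℝ) / 10 ≤ Real.log T := log_thousand.trans (Real.log_le_log (by norm_num) hT)
  have hT0 : 0 < T := by linarith
  have hlk : 0 < Real.log k := Real.log_pos (by linarith)
  refine key k T (by linarith) hT (numbers (by positivity) hk3 hk4 hk5 hl ?_)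
  have h1 := Real.log_le_log hT0 hT2
  rwa [Real.log_rpow (by positivity)] at h1

end Pool.Agent.Results.MP_3d0d30_nt.WeylRange
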